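import Mathlib

set_option autoImplicit false
open MeasureTheory
open scoped ENNReal

namespace Pool.Agent.Results.MP_d464c7_pr.NotAssociated

/-- `V`: the workload vector `w` with `s` added to the first server, rearranged increasingly. -/
noncomputable def V {m : ℕ} (w : Fin (m + 1) → ℝ) (s : ℝ) : Fin (m + 1) → ℝ :=
  (fun j => w j + if j = 0 then s else 0) ∘ Tuple.sort fun j => w j + if j = 0 then s else 0

/-- Law of the next workload vector `(V - T)_+` when `W ~ π`, `S`, `T` are independent. -/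
noncomputable def step {m : ℕ} (S T : Measure ℝ) (π : Measure (Fin (m + 1) → ℝ)) :
    Measure (Fin (m + 1) → ℝ) :=
  (π.prod (S.prod T)).map fun p j => max (V p.1 p.2.1 j - p.2.2) 0

/-- The family `V_1, V_2 - V_1, ..., V_k - V_1, -T`. -/
noncomputable def family {m : ℕ} (p : (Fin (m + 1) → ℝ) × ℝ × ℝ) : Fin (m + 2) → ℝ :=
  Fin.snoc (α := fun _ => ℝ)
    (fun j => if j = 0 then V p.1 p.2.1 0 else V p.1 p.2.1 j - V p.1 p.2.1 0) (-p.2.2)

/-- Association of a random vector `X` under `P`. -/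
def Associated {Ω : Type} [MeasurableSpace Ω] (P : Measure Ω) {n : ℕ} (X : Ω → Fin n → ℝ) : Prop :=
  ∀ f g : (Fin n → ℝ) → ℝ, Measurable f → Measurable g → Monotone f → Monotone g →
    (∃ C, ∀ x, |f x| ≤ C ∧ |g x| ≤ C) →
    (∫ ω, f (X ω) ∂P) * (∫ ω, g (X ω) ∂P) ≤ ∫ ω, f (X ω) * g (X ω) ∂P

lemma sort_two (v : Fin (1 + 1) → ℝ) :
    v ∘ Tuple.sort v = ![min (v 0) (v 1), max (v 0) (v 1)] := by
  have h1 : v (Tuple.sort v 0) ≤ v (Tuple.sort v 1) := Tuple.monotone_sort v (by decide)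
  have h2 : Tuple.sort v 0 ≠ Tuple.sort v 1 := (Tuple.sort v).injective.ne (by decide)
  have h3 : ∀ a b : Fin (1 + 1), a ≠ b → (a = 0 ∧ b = 1) ∨ (a = 1 ∧ b = 0) := by decide
  have h4 : v (Tuple.sort v 0) = min (v 0) (v 1) ∧ v (Tuple.sort v 1) = max (v 0) (v 1) := by
    rcases h3 _ _ h2 with ⟨a, b⟩ | ⟨a, b⟩ <;> rw [a, b] at h1 ⊢
    · exact ⟨(min_eq_left h1).symm, (max_eq_right h1).symm⟩
    · exact ⟨(min_eq_right h1).symm, (max_eq_left h1).symm⟩
  funext i
  fin_cases i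
  · exact h4.1
  · exact h4.2

lemma V_two (w : Fin (1 + 1) → ℝ) (s : ℝ) :
    V w s = ![min (w 0 + s) (w 1), max (w 0 + s) (w 1)] := by
  rw [V, sort_two]
  simp

lemma meas_kw : Measurable fun (p : (Fin (1 + 1) → ℝ) × ℝ × ℝ) (j : Fin (1 + 1)) =>
    max (V p.1 p.2.1 j - p.2.2) 0 := by
  simp only [V_two]
  refine measurable_pi_lambda _ fun i => ?_
  fin_cases i <;> simp <;> fun_prop

noncomputable def two {X : Type} [MeasurableSpace X] (a b : X) : Measure X :=
  (4⁻¹ : ℝ≥0∞) • Measure.dirac a + (3 / 4 : ℝ≥0∞) • Measure.dirac b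

lemma w_add : (4⁻¹ : ℝ≥0∞) + 3 / 4 = 1 := by
  rw [← one_div, ENNReal.div_add_div_same]
  norm_num
  exact ENNReal.div_self (by norm_num) (by norm_num)

instance {X : Type} [MeasurableSpace X] (a b : X) : IsProbabilityMeasure (two a b) :=
  ⟨by simp [two, w_add]⟩

lemma int_two {X : Type} [MeasurableSpace X] [MeasurableSingletonClass X] (a b : X) (f : X → ℝ) :
    Integrable f (two a b) ∧ ∫ x, f x ∂(two a b) = 1 / 4 * f a + 3 / 4 * f b := by
  have h1 : Integrable f ((4⁻¹ : ℝ≥0∞) • Measure.dirac a) :=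
    (integrable_dirac (by simp)).smul_measure (by simp)
  have h2 : Integrable f ((3 / 4 : ℝ≥0∞) • Measure.dirac b) :=
    (integrable_dirac (by simp)).smul_measure (by finiteness)
  refine ⟨h1.add_measure h2, ?_⟩
  rw [two, integral_add_measure h1 h2]
  simp

lemma one_step (w : Fin (1 + 1) → ℝ) (h0 : w 0 = 0) (h1 : w 1 ≤ 1) (A : Set (Fin (1 + 1) → ℝ))
    (hA : MeasurableSet A) :
    ((two (1 / 2 : ℝ) 2).prod (Measure.dirac (1 : ℝ))) (Prod.mk w ⁻¹'
      ((fun (p : (Fin (1 + 1) → ℝ) × ℝ × ℝ) (j : Fin (1 + 1)) =>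
        max (V p.1 p.2.1 j - p.2.2) 0) ⁻¹' A)) = two ![0, 0] ![0, 1] A := by
  have e1 : (fun j => max (V w (1 / 2) j - 1) 0) = ![0, 0] := by
    funext j
    rw [V_two, h0]
    fin_cases j
    · exact max_eq_right (by simp; left; norm_num)
    · exact max_eq_right (by simp; exact ⟨by norm_num, h1⟩)
  have e2 : (fun j => max (V w 2 j - 1) 0) = ![0, 1] := by
    funext j
    rw [V_two, h0]
    fin_cases j
    · exact max_eq_right (by simpa using h1)
    · have : max (0 + 2) (w 1) = 2 := by rw [max_eq_left (by linarith)]; norm_num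
      simp only [this]
      norm_num
  rw [Measure.prod_dirac, Measure.map_apply (by fun_prop) (measurable_prodMk_left (meas_kw hA))]
  simp only [two, Measure.add_apply, Measure.smul_apply, Measure.dirac_apply, ← e1, ← e2]
  rfl

lemma step_zero : step (two (1 / 2) 2) (Measure.dirac 1) (Measure.dirac (0 : Fin (1 + 1) → ℝ)) =
    two ![0, 0] ![0, 1] := by
  ext A hA
  rw [step, Measure.map_apply meas_kw hA, Measure.prod_apply (meas_kw hA), lintegral_dirac,
    one_step _ rfl (by simp) A hA]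

lemma step_pi : step (two (1 / 2) 2) (Measure.dirac 1) (two (![0, 0] : Fin (1 + 1) → ℝ) ![0, 1]) =
    two ![0, 0] ![0, 1] := by
  ext A hA
  rw [step, Measure.map_apply meas_kw hA, Measure.prod_apply (meas_kw hA)]
  conv_lhs => rw [two]
  rw [lintegral_add_measure, lintegral_smul_measure, lintegral_smul_measure,
    lintegral_dirac, lintegral_dirac, one_step _ rfl (by simp) A hA, one_step _ rfl (by simp) A hA,
    smul_eq_mul, smul_eq_mul, ← add_mul, w_add, one_mul]

lemma int_prod (φ : (Fin (1 + 1) → ℝ) × ℝ × ℝ → ℝ) (hφ : Measurable φ) (hb : ∀ p, |φ p| ≤ 1) :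
    ∫ p, φ p ∂((two (![0, 0] : Fin (1 + 1) → ℝ) ![0, 1]).prod
      ((two (1 / 2 : ℝ) 2).prod (Measure.dirac (1 : ℝ)))) =
      1 / 4 * (1 / 4 * φ (![0, 0], 1 / 2, 1) + 3 / 4 * φ (![0, 0], 2, 1)) +
        3 / 4 * (1 / 4 * φ (![0, 1], 1 / 2, 1) + 3 / 4 * φ (![0, 1], 2, 1)) := by
  rw [integral_prod _ (Integrable.of_bound hφ.aestronglyMeasurable 1 (ae_of_all _ hb)),
    (int_two _ _ _).2]
  have : ∀ w, ∫ q, φ (w, q) ∂((two (1 / 2 : ℝ) 2).prod (Measure.dirac (1 : ℝ))) =
      1 / 4 * φ (w, 1 / 2, 1) + 3 / 4 * φ (w, 2, 1) := by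
    intro w
    have hm : Measurable fun q : ℝ × ℝ => φ (w, q) := hφ.comp measurable_prodMk_left
    rw [Measure.prod_dirac, integral_map (φ := fun x : ℝ => (x, (1 : ℝ))) (by fun_prop)
      hm.aestronglyMeasurable, (int_two _ _ _).2]
  rw [this, this]

lemma fam0 (p : (Fin (1 + 1) → ℝ) × ℝ × ℝ) : family p 0 = min (p.1 0 + p.2.1) (p.1 1) := by
  have : (0 : Fin (1 + 2)) = Fin.castSucc (0 : Fin (1 + 1)) := rfl
  rw [family, this, Fin.snoc_castSucc, V_two]
  simp

lemma fam1 (p : (Fin (1 + 1) → ℝ) × ℝ × ℝ) :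
    family p 1 = max (p.1 0 + p.2.1) (p.1 1) - min (p.1 0 + p.2.1) (p.1 1) := by
  have : (1 : Fin (1 + 2)) = Fin.castSucc (1 : Fin (1 + 1)) := rfl
  rw [family, this, Fin.snoc_castSucc, V_two]
  simp

theorem result : ∃ (m : ℕ) (S T : Measure ℝ) (π : Measure (Fin (m + 1) → ℝ)),
    1 ≤ m ∧ IsProbabilityMeasure S ∧ IsProbabilityMeasure T ∧ IsProbabilityMeasure π ∧
    (∀ᵐ s ∂S, 0 < s) ∧ (∀ᵐ t ∂T, 0 < t) ∧
    Integrable (fun s => s) S ∧ Integrable (fun t => t) T ∧
    (∫ s, s ∂S) / ((m + 1) * ∫ t, t ∂T) < 1 ∧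
    step S T π = π ∧ (∀ n, 1 ≤ n → (step S T)^[n] (Measure.dirac 0) = π) ∧
    ¬ Associated (π.prod (S.prod T)) family := by
  refine ⟨1, two (1 / 2) 2, Measure.dirac 1, two ![0, 0] ![0, 1], le_rfl, inferInstance,
    inferInstance, inferInstance, ?_, by simp, (int_two _ _ _).1, integrable_dirac (by simp), ?_,
    step_pi, ?_, ?_⟩
  · rw [two, ae_add_measure_iff]
    exact ⟨Measure.ae_smul_measure (by simp) _, Measure.ae_smul_measure (by simp) _⟩
  · rw [(int_two _ _ _).2, integral_dirac]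
    norm_num
  · intro n hn
    induction n, hn using Nat.le_induction with
    | base => exact step_zero
    | succ n _ ih => rw [Function.iterate_succ_apply', ih, step_pi]
  · intro h
    have hb : ∀ a : ℝ, |max 0 (min a 1)| ≤ 1 := fun a => by
      rw [abs_of_nonneg (le_max_left _ _)]
      exact max_le zero_le_one (min_le_right _ _)
    have := h (fun x => max 0 (min (2 * x 0) 1)) (fun x => max 0 (min (x 1 - 1) 1)) (by fun_prop)
      (by fun_prop)
      (fun x y hxy => max_le_max le_rfl (min_le_min (by linarith [hxy 0]) le_rfl))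
      (fun x y hxy => max_le_max le_rfl (min_le_min (by linarith [hxy 1]) le_rfl))
      ⟨1, fun x => ⟨hb _, hb _⟩⟩
    simp only [fam0, fam1] at this
    rw [int_prod _ (by fun_prop) fun _ => hb _, int_prod _ (by fun_prop) fun _ => hb _,
      int_prod _ (by fun_prop) fun _ => by
        rw [abs_mul]
        exact mul_le_one₀ (hb _) (abs_nonneg _) (hb _)] at this
    norm_num at this

end Pool.Agent.Results.MP_d464c7_pr.NotAssociated
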